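import Pool.Agent.T2h50.FR.Inf

/-!
# The radial-derivative characterisation of Fock spaces

For all `n ≥ 1`, `0 < p ≤ ∞`, `α > 0`, `N ≥ 1` and every entire function `f` on `ℂⁿ`:
`f ∈ F^p_α` if and only if `R^N f(z) / (1 + |z|²)^N ∈ L^p_α`.

Proof of the converse implication (the direct one is a Cauchy estimate on the disks of radius
`1 / (1 + |z|²)` in the complex rays `ζ ↦ e^ζ z`): cut `ℂⁿ` into the shells `k ≤ |z|² < k + 1`.
A dilation maps the shell `k + 1` into the shell `k`, the weight gains a factor `e^(-α/2)`, and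
`f(z)` differs from the value at the image point by at most `1 / (1 + |z|²)` times the maximum of
`|R f|` on such a disk, which is controlled by an area average since `|R f|^p` is subharmonic on the
rays, for all `p > 0`. This gives a contracting recurrence for the integrals over the shells.
-/

open MeasureTheory Metric Set
open scoped ENNReal

namespace Pool.Agent.Results.MP_bbe01f_an.RadialDerivativeFock

open Pool.Agent.T2h50.FR

variable {n : ℕ}

theorem norm_weighted (α : ℝ) (G : (Fin n → ℂ) → ℂ) (N : ℕ) (z : Fin n → ℂ) :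
    ‖G z / (1 + (nsq z : ℂ)) ^ N * (Real.exp (-(α * nsq z / 2)) : ℂ)‖ =
      wt (α / 2) N (nsq z) * ‖G z‖ := by
  have hz := nsq_nonneg z
  have h1 : ‖(1 + (nsq z : ℂ))‖ = 1 + nsq z := by
    have : (1 + (nsq z : ℂ)) = ((1 + nsq z : ℝ) : ℂ) := by push_cast; rfl
    rw [this, Complex.norm_real, Real.norm_of_nonneg (by positivity)]
  rw [norm_mul, norm_div, norm_pow, h1, Complex.norm_real, Real.norm_of_nonneg (Real.exp_pos _).le]
  unfold wt
  rw [Real.rpow_neg (by positivity), Real.rpow_natCast]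
  have : -(α * nsq z / 2) = -(α / 2 * nsq z) := by ring
  rw [this]
  field_simp

theorem continuous_weighted {G : (Fin n → ℂ) → ℂ} (hG : Continuous G) (α : ℝ) (N : ℕ) :
    Continuous (fun z => G z / (1 + (nsq z : ℂ)) ^ N * (Real.exp (-(α * nsq z / 2)) : ℂ)) := by
  have h := continuous_nsq (n := n)
  have hc : Continuous fun z : Fin n → ℂ => (nsq z : ℂ) := Complex.continuous_ofReal.comp h
  apply Continuous.mul
  · apply hG.div (by fun_prop)
    intro z
    apply pow_ne_zero
    have hz := nsq_nonneg z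
    have : (1 + (nsq z : ℂ)) = ((1 + nsq z : ℝ) : ℂ) := by push_cast; rfl
    rw [this]
    exact_mod_cast (by positivity : (1 + nsq z) ≠ 0)
  · apply Complex.continuous_ofReal.comp
    fun_prop

theorem inL_iff_J {p : ℝ≥0∞} (h0 : p ≠ 0) (ht : p ≠ ⊤) (α : ℝ) {G : (Fin n → ℂ) → ℂ}
    (hG : Continuous G) (N : ℕ) :
    InL p α (fun z => G z / (1 + (nsq z : ℂ)) ^ N) ↔
      J p.toReal (p.toReal * (α / 2)) (N * p.toReal) G ≠ ⊤ := by
  have hp : 0 < p.toReal := ENNReal.toReal_pos h0 ht
  unfold InL MemLp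
  rw [eLpNorm_lt_top_iff_lintegral_rpow_enorm_lt_top h0 ht, lt_top_iff_ne_top]
  have e : ∀ z : Fin n → ℂ,
      ‖G z / (1 + (nsq z : ℂ)) ^ N * (Real.exp (-(α * nsq z / 2)) : ℂ)‖ₑ ^ p.toReal =
      ENNReal.ofReal (wt (p.toReal * (α / 2)) (N * p.toReal) (nsq z)) * ‖G z‖ₑ ^ p.toReal := by
    intro z
    have hz := nsq_nonneg z
    rw [enorm_rpow_eq hp, enorm_rpow_eq hp, norm_weighted, ← ENNReal.ofReal_mul (wt_pos _ _ hz).le,
      Real.mul_rpow (wt_pos _ _ hz).le (norm_nonneg _)]
    congr 2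
    unfold wt
    rw [Real.mul_rpow (by positivity) (by positivity), ← Real.exp_mul, ← Real.rpow_mul (by positivity)]
    congr 1
    · congr 1; ring
    · congr 1; ring
  simp only [e]
  constructor
  · exact fun h => h.2
  · exact fun h => ⟨(continuous_weighted hG α N).aestronglyMeasurable, h⟩

theorem inL_iff_Bd (α : ℝ) {G : (Fin n → ℂ) → ℂ} (hG : Continuous G) (N : ℕ) :
    InL ⊤ α (fun z => G z / (1 + (nsq z : ℂ)) ^ N) ↔ Bd (α / 2) N G := by
  have hc := continuous_weighted hG α N
  unfold InL Bd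
  constructor
  · intro h
    refine ⟨(eLpNormEssSup (fun z => G z / (1 + (nsq z : ℂ)) ^ N *
      (Real.exp (-(α * nsq z / 2)) : ℂ)) volume).toReal, fun z => ?_⟩
    have hfin : eLpNormEssSup (fun z => G z / (1 + (nsq z : ℂ)) ^ N *
      (Real.exp (-(α * nsq z / 2)) : ℂ)) volume ≠ ⊤ := by
      have := h.2
      rw [eLpNorm_exponent_top] at this
      exact this.ne
    have h1 := ae_le_eLpNormEssSup (f := fun z : Fin n → ℂ => G z / (1 + (nsq z : ℂ)) ^ N *
      (Real.exp (-(α * nsq z / 2)) : ℂ)) (μ := volume)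
    have hcl : IsClosed {z : Fin n → ℂ | ‖G z / (1 + (nsq z : ℂ)) ^ N *
        (Real.exp (-(α * nsq z / 2)) : ℂ)‖ₑ ≤ eLpNormEssSup (fun z => G z / (1 + (nsq z : ℂ)) ^ N *
      (Real.exp (-(α * nsq z / 2)) : ℂ)) volume} :=
      isClosed_le hc.enorm continuous_const
    have h2 := (hcl.ae_eq_univ_iff_eq (μ := (volume : Measure (Fin n → ℂ)))).1
      (Filter.eventuallyEq_univ.2 h1)
    have h3 : z ∈ {z : Fin n → ℂ | ‖G z / (1 + (nsq z : ℂ)) ^ N *
        (Real.exp (-(α * nsq z / 2)) : ℂ)‖ₑ ≤ eLpNormEssSup (fun z => G z / (1 + (nsq z : ℂ)) ^ N *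
      (Real.exp (-(α * nsq z / 2)) : ℂ)) volume} := by rw [h2]; trivial
    have h4 : ‖G z / (1 + (nsq z : ℂ)) ^ N * (Real.exp (-(α * nsq z / 2)) : ℂ)‖ₑ ≤
      eLpNormEssSup (fun z => G z / (1 + (nsq z : ℂ)) ^ N *
      (Real.exp (-(α * nsq z / 2)) : ℂ)) volume := h3
    rw [← ofReal_norm, norm_weighted] at h4
    exact (ENNReal.ofReal_le_iff_le_toReal hfin).1 h4
  · rintro ⟨M, hM⟩
    apply memLp_top_of_bound hc.aestronglyMeasurable M
    filter_upwards with z
    rw [norm_weighted]
    exact hM z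

/-- The converse implication for finite exponents, iterated. -/
theorem backward {p a : ℝ} (hp : 0 < p) (ha : 0 < a) {f : (Fin n → ℂ) → ℂ}
    (hf : Differentiable ℂ f) (N : ℕ) (h : J p a (N * p) (radial^[N] f) ≠ ⊤) : J p a 0 f ≠ ⊤ := by
  induction N with
  | zero => simpa using h
  | succ N ih =>
    apply ih
    apply step hp ha (by positivity) (differentiable_iter hf N)
    rw [Function.iterate_succ_apply'] at h
    have e : ((N + 1 : ℕ) : ℝ) * p = N * p + p := by push_cast; ring
    rw [e] at h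
    exact h

/-- The converse implication for `p = ∞`, iterated. -/
theorem backward_inf {a : ℝ} (ha : 0 < a) {f : (Fin n → ℂ) → ℂ}
    (hf : Differentiable ℂ f) (N : ℕ) (h : Bd a N (radial^[N] f)) : Bd a 0 f := by
  induction N with
  | zero => simpa using h
  | succ N ih =>
    apply ih
    apply step_inf ha (by positivity) (differentiable_iter hf N)
    rw [Function.iterate_succ_apply'] at h
    have e : ((N + 1 : ℕ) : ℝ) = N + 1 := by push_cast; ring
    rw [e] at h
    exact h

/-- **Theorem.** For all `n ≥ 1`, `0 < p ≤ ∞`, `α > 0`, `N ≥ 1` and every entire function `f` on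
`ℂⁿ`: `f ∈ F^p_α` if and only if `R^N f(z) / (1 + |z|²)^N ∈ L^p_α`. -/
theorem result : ∀ (n : ℕ), 1 ≤ n → ∀ (p : ℝ≥0∞), p ≠ 0 → ∀ (α : ℝ), 0 < α → ∀ (N : ℕ), 1 ≤ N →
    ∀ f : (Fin n → ℂ) → ℂ, Differentiable ℂ f →
      (f ∈ Fock n p α ↔ InL p α (fun z => (radial^[N] f) z / (1 + (nsq z : ℂ)) ^ N)) := by
  intro n _ p h0 α hα N _ f hf
  have e0 : f = fun z => f z / (1 + (nsq z : ℂ)) ^ 0 := by
    funext z; simp
  have h1 : f ∈ Fock n p α ↔ InL p α f := ⟨fun h => h.1, fun h => ⟨h, hf⟩⟩
  rw [h1]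
  conv_lhs => rw [e0]
  by_cases ht : p = ⊤
  · subst ht
    rw [inL_iff_Bd α hf.continuous 0, inL_iff_Bd α (differentiable_iter hf N).continuous N]
    constructor
    · intro h
      rw [Nat.cast_zero] at h
      exact forward_inf (by positivity) hf N h
    · intro h
      rw [Nat.cast_zero]
      exact backward_inf (by positivity) hf N h
  · have hp : 0 < p.toReal := ENNReal.toReal_pos h0 ht
    rw [inL_iff_J h0 ht α hf.continuous 0, inL_iff_J h0 ht α (differentiable_iter hf N).continuous N,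
      Nat.cast_zero, zero_mul]
    constructor
    · exact fun h => forward hp (by positivity) hf N h
    · exact fun h => backward hp (by positivity) hf N h

end Pool.Agent.Results.MP_bbe01f_an.RadialDerivativeFock
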